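import Pool.Agent.U536.CF.TU
import Pool.Agent.Results.MP_3cf473_nt.MultiplicativeValues
import Pool.Agent.N255.TGX.Dyadic

/-!
# The conjectural measure of algebraic independence for the logarithms of integers with large common factors with the values of multiplicative functions

Let `F_1, ..., F_k` be positive multiplicative functions of at most polynomial growth such that `F_i p ≤ M p` for the
large primes `p`, with different values at different large primes; for example Euler's function or the sum of the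
divisors. Let `b < 1` and `0 ≤ c < 2 b - 1`. For all tuples `m` in `[1, N]^k` but `N^k exp (-(log N)^c)`, for EVERY tuple
`w` of integers `w_i ≥ exp ((log N)^b)` such that `gcd(w_i, F_i(m_i)) ≥ w_j^ρ` for all `i`, `j`, with `M = max w_i`, the
lower bound `|P (l)| ≥ 1 / (M H ^ C)` holds for all heights `2 ≤ H ≤ exp (exp (M ^ (1 / C)))`, all logarithms `l i` of the
`w_i` with `|Im (l i)| ≤ H` and all nonzero polynomials `P` with integer coefficients, of degree at most `d` and height at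
most `H`; and (for every unbounded set of heights, the exceptional set depends on it) `|P (l)| ≥ H ^ (- C)` for
arbitrarily large heights `H` in the set, all such `l` and `P`; the constants `C` and `ρ < 1` depend only on `k` and `d`.
The tuples `w` include all tuples of large divisors `w_i` of the `F_i(m_i)` of comparable size and their multiples by
small integers.

Proof. But for few exceptional `m_i ≤ N`, the number of `m_i` with `g ∣ F_i(m_i)` is at most `N τ_J(g) / g` up to a factor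
`exp ((log N)^s)`, `J = (log N)^a`, `a < s < b`, for all `g`: write `m_i = k u` with `u` squarefree and composed of primes
larger than `N^(1/J)`, `k ≤ exp (4 (log N)^a)`. If `w` is an exceptional tuple with `w_i ≤ X`, then the `g_i = gcd(w_i,
F_i(m_i))` are divisors of the `w_i` of size `≥ (X/2)^ρ`; there are few such tuples of divisors, and the inequality `τ_J^q
≤ τ_K` for `K ≥ J^q` with Hölder's inequality for tuples bounds the sum of `∏ τ_J(g_i) / g_i`. The file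
`MultiplicativeValues` of the starting library treats the tuples `w = (F_i(m_i))` only, with `N^k / (log N)^U` exceptions.
-/

set_option autoImplicit false

namespace Pool.Agent.Results.MP_3cf473_nt.CommonFactors

open Finset
open Pool.Agent.Results.MP_3cf473_nt.AlmostAllTuples (Small box)
open Pool.Agent.N733.TG (LM lm_totient lm_sigma)
open Pool.Agent.U536.CF (CommonT avoidT commonT_of_dvd exists_rho)

/-- the tuples with a polynomial relation that is too small -/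
def W1 {k : ℕ} (d C : ℕ) : Set (Fin k → ℕ) :=
  {w | ∃ i₀, (∀ i, w i ≤ w i₀) ∧ ∃ H : ℝ, 2 ≤ H ∧ H ≤ Real.exp (Real.exp ((w i₀ : ℝ) ^ (1 / (C : ℝ)))) ∧
    Small d H (1 / (w i₀ * H ^ C)) w}

lemma Small.mono {k d : ℕ} {H η η' : ℝ} {n : Fin k → ℕ} (h : Small d H η n) (hη : η ≤ η') : Small d H η' n := by
  obtain ⟨l, h1, h2, P, h3, h4, h5, h6⟩ := h
  exact ⟨l, h1, h2, P, h3, h4, h5, h6.trans_le hη⟩

open Classical in
lemma count1 {k d C : ℕ} (hk : 1 ≤ k) (hC1 : (1 : ℝ) ≤ C)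
    (h : ∀ T : ℕ, 1 ≤ T → ∀ κ : ℝ, 0 < κ → κ ≤ 1 →
      (((box k T).filter fun n => ∃ H : ℝ, 2 ≤ H ∧
        H ≤ Real.exp (Real.exp ((T : ℝ) ^ (1 / (C : ℝ)))) ∧ Small d H (κ / H ^ C) n).card : ℝ) ≤
        C * (κ ^ (1 / (C : ℝ)) * (T : ℝ) ^ k + (T : ℝ) ^ ((k : ℝ) - 1 / C))) :
    ∃ K : ℝ, ∀ X : ℕ, 1 ≤ X → ({w : Fin k → ℕ | (∀ i, 2 ≤ w i ∧ w i ≤ X) ∧ w ∈ W1 d C}.ncard : ℝ) ≤
      K * (X : ℝ) ^ ((k : ℝ) - 1 / (2 * C)) := by
  have hk1 : (1 : ℝ) ≤ k := by exact_mod_cast hk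
  have hC0 : (0 : ℝ) < C := by linarith
  have e1 : 1 / (2 * (C : ℝ)) ≤ 1 / 2 := one_div_le_one_div_of_le (by norm_num) (by linarith)
  have e2 : 1 / (2 * (C : ℝ)) ≤ 1 / C := one_div_le_one_div_of_le hC0 (by linarith)
  have e3 : 1 / (C : ℝ) ≤ 1 := by rw [div_le_one hC0]; exact hC1
  refine Exists.elim (Pool.Agent.N255.TGX.dyadic
    (N := fun X : ℝ => (((box k ⌊X⌋₊).filter (fun w => w ∈ W1 d C)).card : ℝ))
    (s := (k : ℝ) - 1 / (2 * C)) (C := 3 * C) (B := ((box k 2).card : ℝ)) (X₀ := 2) (by linarith) (by positivity)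
    (by positivity) le_rfl ?_ ?_) (fun K hK => ?_)
  rotate_left 2
  · refine ⟨K, fun X hX => le_trans ?_ (hK X (by exact_mod_cast hX))⟩
    simp only [Nat.floor_natCast]
    rw [← Set.ncard_coe_finset]
    apply Nat.cast_le.2
    apply Set.ncard_le_ncard _ (finite_toSet _)
    rintro w ⟨hw, hwW⟩
    rw [mem_coe, mem_filter, AlmostAllTuples.box, Fintype.mem_piFinset]
    exact ⟨fun i => mem_Icc.2 ⟨by have := (hw i).1; omega, (hw i).2⟩, hwW⟩
  · intro X _ hX
    apply Nat.cast_le.2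
    refine (card_filter_le _ _).trans (card_le_card ?_)
    have hfl : ⌊X⌋₊ ≤ 2 := Nat.floor_le_of_le (by exact_mod_cast hX.le)
    unfold AlmostAllTuples.box
    exact Fintype.piFinset_subset _ _ fun _ => Icc_subset_Icc_right hfl
  · intro X hX
    obtain ⟨T, hT⟩ : ∃ T : ℕ, T = ⌊X⌋₊ := ⟨_, rfl⟩
    have hT2 : 2 ≤ T := by rw [hT]; exact Nat.le_floor (by exact_mod_cast hX)
    have hT2r : (2 : ℝ) ≤ T := by exact_mod_cast hT2
    have hTX : (T : ℝ) ≤ X := by rw [hT]; exact Nat.floor_le (by linarith)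
    have hsub : (box k ⌊X⌋₊).filter (fun w => w ∈ W1 d C) ⊆ (box k ⌊X / 2⌋₊).filter (fun w => w ∈ W1 d C) ∪
        (box k T).filter (fun n => ∃ H : ℝ, 2 ≤ H ∧ H ≤ Real.exp (Real.exp ((T : ℝ) ^ (1 / (C : ℝ)))) ∧
          Small d H ((2 / T) / H ^ C) n) := by
      intro w hw
      rw [mem_filter, ← hT] at hw
      obtain ⟨hw1, hw2⟩ := hw
      have hw1' := hw1
      rw [AlmostAllTuples.box, Fintype.mem_piFinset] at hw1'
      rw [mem_union, mem_filter, mem_filter]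
      obtain ⟨i₀, h1, H, h2, h3, h4⟩ := hw2
      have hi₀ := mem_Icc.1 (hw1' i₀)
      have hwT : (w i₀ : ℝ) ≤ T := by exact_mod_cast hi₀.2
      by_cases hle : (w i₀ : ℝ) ≤ X / 2
      · left
        refine ⟨?_, i₀, h1, H, h2, h3, h4⟩
        rw [AlmostAllTuples.box, Fintype.mem_piFinset]
        intro i
        rw [mem_Icc]
        refine ⟨(mem_Icc.1 (hw1' i)).1, Nat.le_floor ?_⟩
        exact le_trans (by exact_mod_cast h1 i) hle
      · right
        rw [not_le] at hle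
        refine ⟨hw1, H, h2, h3.trans ?_, Small.mono h4 ?_⟩
        · apply Real.exp_le_exp.2
          apply Real.exp_le_exp.2
          exact Real.rpow_le_rpow (Nat.cast_nonneg _) hwT (by positivity)
        · have hH0 : (0 : ℝ) < H ^ C := by positivity
          rw [← div_div]
          apply div_le_div_of_nonneg_right _ hH0.le
          rw [div_le_div_iff₀ (by linarith) (by linarith)]
          linarith
    have h5 : (((box k ⌊X⌋₊).filter (fun w => w ∈ W1 d C)).card : ℝ) ≤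
        (((box k ⌊X / 2⌋₊).filter (fun w => w ∈ W1 d C)).card : ℝ) +
        (((box k T).filter (fun n => ∃ H : ℝ, 2 ≤ H ∧ H ≤ Real.exp (Real.exp ((T : ℝ) ^ (1 / (C : ℝ)))) ∧
          Small d H ((2 / T) / H ^ C) n)).card : ℝ) := by
      exact_mod_cast (card_le_card hsub).trans (card_union_le _ _)
    have h6 := h T (by omega) (2 / T) (by positivity) (by rw [div_le_one (by linarith)]; exact hT2r)
    refine h5.trans (add_le_add_right (h6.trans ?_) _)
    have hT0 : (0 : ℝ) < T := by linarith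
    have h7 : (2 / (T : ℝ)) ^ (1 / (C : ℝ)) * (T : ℝ) ^ k ≤ 2 * (T : ℝ) ^ ((k : ℝ) - 1 / C) := by
      rw [Real.div_rpow (by norm_num) hT0.le, Real.rpow_sub hT0, Real.rpow_natCast]
      have h8 : (2 : ℝ) ^ (1 / (C : ℝ)) ≤ 2 := by
        calc (2 : ℝ) ^ (1 / (C : ℝ)) ≤ 2 ^ (1 : ℝ) := Real.rpow_le_rpow_of_exponent_le (by norm_num) e3
          _ = 2 := Real.rpow_one _
      calc (2 : ℝ) ^ (1 / (C : ℝ)) / (T : ℝ) ^ (1 / (C : ℝ)) * (T : ℝ) ^ k =
            (2 : ℝ) ^ (1 / (C : ℝ)) * ((T : ℝ) ^ k / (T : ℝ) ^ (1 / (C : ℝ))) := by ring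
        _ ≤ 2 * ((T : ℝ) ^ k / (T : ℝ) ^ (1 / (C : ℝ))) := mul_le_mul_of_nonneg_right h8 (by positivity)
    have h9 : (T : ℝ) ^ ((k : ℝ) - 1 / C) ≤ X ^ ((k : ℝ) - 1 / (2 * C)) := by
      calc (T : ℝ) ^ ((k : ℝ) - 1 / C) ≤ X ^ ((k : ℝ) - 1 / C) := Real.rpow_le_rpow hT0.le hTX (by linarith)
        _ ≤ X ^ ((k : ℝ) - 1 / (2 * C)) := Real.rpow_le_rpow_of_exponent_le (by linarith) (by linarith)
    calc (C : ℝ) * ((2 / (T : ℝ)) ^ (1 / (C : ℝ)) * (T : ℝ) ^ k + (T : ℝ) ^ ((k : ℝ) - 1 / C))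
        ≤ C * (3 * X ^ ((k : ℝ) - 1 / (2 * C))) := by
          apply mul_le_mul_of_nonneg_left _ hC0.le
          linarith
      _ = 3 * C * X ^ ((k : ℝ) - 1 / (2 * C)) := by ring

/-- **The conjectural measure of algebraic independence for the logarithms of integers with large common factors with the
values of multiplicative functions.** Let the `F_i` be multiplicative and positive, of at most polynomial growth, with
`F_i p ≤ M p` at the large primes, and injective there. Let `b < 1` and `0 ≤ c < 2 b - 1`. For all large `N`, for all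
tuples `m` in `[1, N]^k` but `N^k exp (-(log N)^c)`, for EVERY tuple `w` of integers `w_i ≥ exp ((log N)^b)` with
`gcd(w_i, F_i(m_i)) ≥ w_j^ρ` for all `i`, `j`, with `M = max w_i`, the lower bound `|P (l)| ≥ 1 / (M H ^ C)` holds for all
heights `2 ≤ H ≤ exp (exp (M ^ (1 / C)))`, all logarithms `l i` of the `w_i` with `|Im (l i)| ≤ H` and all nonzero
polynomials `P` with integer coefficients, of degree at most `d` and height at most `H`; and (for every unbounded set of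
heights, the exceptional set depends on it) `|P (l)| ≥ H ^ (- C)` for arbitrarily large heights `H` in the set, all such
`l` and `P`; the constants `C` and `ρ < 1` depend only on `k` and `d`. Tuples of divisors `w_i ≥ exp ((log N)^b)` of the
`F_i(m_i)` with `w_j^ρ ≤ w_i` for all `i`, `j` are such tuples. Euler's function and the sum of the divisors are examples
of the `F_i`. -/
theorem result :
    (∀ k d : ℕ, 1 ≤ k → ∃ C : ℕ, 0 < C ∧ ∃ ρ : ℝ, 0 < ρ ∧ ρ < 1 ∧ ∀ F : Fin k → ℕ → ℕ, (∀ i, LM (F i)) →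
      ∀ b c : ℝ, b < 1 → 0 ≤ c → c < 2 * b - 1 → ∃ N₀ : ℕ, ∀ N : ℕ, N₀ ≤ N →
      ({m : Fin k → ℕ | (∀ i, 1 ≤ m i ∧ m i ≤ N) ∧ ¬ ∀ w : Fin k → ℕ, CommonT F b ρ N m w →
        ∀ i₀, (∀ i, w i ≤ w i₀) → ∀ H : ℝ, 2 ≤ H → H ≤ Real.exp (Real.exp ((w i₀ : ℝ) ^ (1 / (C : ℝ)))) →
          ¬ Small d H (1 / (w i₀ * H ^ C)) w}.ncard : ℝ) ≤ (N : ℝ) ^ k * Real.exp (-(Real.log N ^ c)) ∧
      ∀ 𝓗 : Set ℝ, ¬ BddAbove 𝓗 →
        ({m : Fin k → ℕ | (∀ i, 1 ≤ m i ∧ m i ≤ N) ∧ ¬ ∀ w : Fin k → ℕ, CommonT F b ρ N m w →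
          ∀ H₀ : ℝ, ∃ H ∈ 𝓗, H₀ ≤ H ∧ ¬ Small d H (1 / H ^ C) w}.ncard : ℝ) ≤
          (N : ℝ) ^ k * Real.exp (-(Real.log N ^ c))) ∧
    (LM Nat.totient ∧ LM (fun m => ∑ d ∈ m.divisors, d)) ∧
    ∀ (k : ℕ) (F : Fin k → ℕ → ℕ) (b ρ : ℝ) (N : ℕ) (m w : Fin k → ℕ), (∀ i, Real.exp (Real.log N ^ b) ≤ (w i : ℝ)) →
      (∀ i, w i ∣ F i (m i)) → (∀ i j, (w j : ℝ) ^ ρ ≤ (w i : ℝ)) → CommonT F b ρ N m w := by
  refine ⟨?_, ⟨lm_totient, lm_sigma⟩, fun k F b ρ N m w h1 h2 h3 => commonT_of_dvd h1 h2 h3⟩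
  classical
  intro k d hk
  obtain ⟨C, hC, h⟩ := AlmostAllTuples.result k d
  have hC1 : (1 : ℝ) ≤ C := by exact_mod_cast hC
  obtain ⟨ρ, hρ0, hρ1, hρ⟩ := exists_rho hk (show (0 : ℝ) < 1 / (2 * C) by positivity)
  obtain ⟨K, hK⟩ := count1 hk hC1 (fun T hT => (h T hT).1)
  refine ⟨C, hC, ρ, hρ0, hρ1, fun F hF b c hb hc hcb => ?_⟩
  obtain ⟨N₁, hN₁⟩ := avoidT hk hF hρ0 hρ1.le hρ K hb hc hcb
  obtain ⟨N₂, hN₂⟩ := avoidT hk hF hρ0 hρ1.le hρ (C : ℝ) hb hc hcb
  refine ⟨max N₁ N₂, fun N hN => ⟨?_, fun 𝓗 h𝓗 => ?_⟩⟩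
  · refine le_trans (le_of_eq ?_) (hN₁ N ((le_max_left _ _).trans hN) (W1 d C) hK)
    congr 2
    ext m
    simp only [Set.mem_ofPred_eq, W1]
    push Not
    refine and_congr_right fun _ => ⟨?_, ?_⟩
    · rintro ⟨w, hw, i₀, h1, H, h2, h3, h4⟩
      exact ⟨w, ⟨i₀, h1, H, h2, h3, h4⟩, hw⟩
    · rintro ⟨w, ⟨i₀, h1, H, h2, h3, h4⟩, hw⟩
      exact ⟨w, hw, i₀, h1, H, h2, h3, h4⟩
  · refine le_trans (le_of_eq ?_) (hN₂ N ((le_max_right _ _).trans hN)
      {w | ∃ H₀ : ℝ, ∀ H ∈ 𝓗, H₀ ≤ H → Small d H (1 / H ^ C) w} (fun X hX => ?_))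
    · congr 2
      ext m
      simp only [Set.mem_ofPred_eq]
      push Not
      refine and_congr_right fun _ => ⟨?_, ?_⟩
      · rintro ⟨w, hw, H₀, h1⟩
        exact ⟨w, ⟨H₀, h1⟩, hw⟩
      · rintro ⟨w, ⟨H₀, h1⟩, hw⟩
        exact ⟨w, hw, H₀, h1⟩
    · have h1 := (h X hX).2.2 𝓗 h𝓗
      have hX1 : (1 : ℝ) ≤ X := by exact_mod_cast hX
      have h2 : (X : ℝ) ^ ((k : ℝ) - 1 / C) ≤ (X : ℝ) ^ ((k : ℝ) - 1 / (2 * C)) := by
        apply Real.rpow_le_rpow_of_exponent_le hX1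
        have : 1 / (2 * (C : ℝ)) ≤ 1 / C := one_div_le_one_div_of_le (by linarith) (by linarith)
        linarith
      refine le_trans ?_ (h1.trans (mul_le_mul_of_nonneg_left h2 (by linarith)))
      rw [← Set.ncard_coe_finset]
      apply Nat.cast_le.2
      apply Set.ncard_le_ncard _ (finite_toSet _)
      rintro w ⟨hw, hwW⟩
      rw [mem_coe, mem_filter, AlmostAllTuples.box, Fintype.mem_piFinset]
      exact ⟨fun i => mem_Icc.2 ⟨by have := (hw i).1; omega, (hw i).2⟩, hwW⟩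

end Pool.Agent.Results.MP_3cf473_nt.CommonFactors
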