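import Pool.Agent.U536.DS.U
import Pool.Agent.Results.MP_3cf473_nt.CommonFactors

/-!
# The conjectural measure of algebraic independence for the logarithms of the integral combinations of two divisors of the
values of multiplicative functions

Let `F_1, ..., F_k` be positive multiplicative functions of at most polynomial growth such that `F_i p ≤ M p` for the large
primes `p`, with different values at different large primes; for example Euler's function or the sum of the divisors. Let
`b < 1` and `0 ≤ c < 2 b - 1`, `θ < b`. For all tuples `m` in `[1, N]^k` but `N^k exp (-(log N)^c)`, for EVERY tuple `w` of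
integers `w_i ≥ exp ((log N)^b)` of the form `w_i = u s + v t` with divisors `s`, `t` of `F_i(m_i)` and integers
`|u|, |v| ≤ exp ((log N)^θ)` (depending on `i`), such that `w_i ≥ w_j^ρ` for all `i`, `j`, with `M = max w_i`, the lower bound
`|P (l)| ≥ 1 / (M H ^ C)` holds for all heights `2 ≤ H ≤ exp (exp (M ^ (1 / C)))`, all logarithms `l i` of the `w_i` with
`|Im (l i)| ≤ H` and all nonzero polynomials `P` with integer coefficients, of degree at most `d` and height at most `H`; and
(for every unbounded set of heights, the exceptional set depends on it) `|P (l)| ≥ H ^ (- C)` for arbitrarily large heights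
`H` in the set, all such `l` and `P`; the constants `C` and `ρ < 1` depend only on `k` and `d`. The tuples `w` include all
tuples of comparable size of large sums and differences `w_i` of ANY two divisors of the `F_i(m_i)`.

Proof. But for few exceptional `m_i ≤ N`, the number of `m_i` with `g ∣ F_i(m_i)` is at most `N τ_J(g) / g` up to a factor
`exp ((log N)^s)`, `J = (log N)^a`, `a < s < b`, for all `g`: write `m_i = k u` with `u` squarefree and composed of primes
larger than `N^(1/J)`, `k ≤ exp (4 (log N)^a)`. Take for `g` the least common multiples of the pairs `(s, t)`: the sum of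
`1 / [s, t]` over the pairs `s, t ≤ X` with `u s + v t = w` is at most `4 U (1 + log X) τ(w) / w` if `|u|, |v| ≤ U`; the
exceptional tuples `w` are few, and the inequality `τ_J^q ≤ τ_K` for `K ≥ J^q` with Hölder's inequality for tuples bounds the
sum over the tuples of pairs. The tuples of the hand-in `CommonFactors` of this page have large common factors with the
`F_i(m_i)`; the sums and differences of two divisors of `F_i(m_i)` have in general none. The file `MultiplicativeValues` of
the starting library treats the tuples `w = (F_i(m_i))` only, with `N^k / (log N)^U` exceptions.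
-/

set_option autoImplicit false

namespace Pool.Agent.Results.MP_3cf473_nt.DivisorSums

open Finset
open Pool.Agent.Results.MP_3cf473_nt.AlmostAllTuples (Small box)
open Pool.Agent.N733.TG (LM lm_totient lm_sigma)
open Pool.Agent.U536.CF (exists_rho)
open Pool.Agent.U536.DS (CombT avoidT2 combT_pm)
open Pool.Agent.Results.MP_3cf473_nt.CommonFactors (W1 count1)

/-- **The conjectural measure of algebraic independence for the logarithms of the integral combinations of two divisors of
the values of multiplicative functions.** Let the `F_i` be multiplicative and positive, of at most polynomial growth, with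
`F_i p ≤ M p` at the large primes, and injective there. Let `b < 1` and `0 ≤ c < 2 b - 1`, `θ < b`. For all large `N`, for all
tuples `m` in `[1, N]^k` but `N^k exp (-(log N)^c)`, for EVERY tuple `w` of integers `w_i ≥ exp ((log N)^b)` of the form
`w_i = u s + v t` with divisors `s`, `t` of `F_i(m_i)` and integers `|u|, |v| ≤ exp ((log N)^θ)` (depending on `i`), with
`w_i ≥ w_j^ρ` for all `i`, `j`, with `M = max w_i`, the lower bound `|P (l)| ≥ 1 / (M H ^ C)` holds for all heights
`2 ≤ H ≤ exp (exp (M ^ (1 / C)))`, all logarithms `l i` of the `w_i` with `|Im (l i)| ≤ H` and all nonzero polynomials `P`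
with integer coefficients, of degree at most `d` and height at most `H`; and (for every unbounded set of heights, the
exceptional set depends on it) `|P (l)| ≥ H ^ (- C)` for arbitrarily large heights `H` in the set, all such `l` and `P`; the
constants `C` and `ρ < 1` depend only on `k` and `d`. The tuples of sums and differences `w_i ≥ exp ((log N)^b)` of two
divisors of the `F_i(m_i)` with `w_j^ρ ≤ w_i` for all `i`, `j` are such tuples. Euler's function and the sum of the divisors
are examples of the `F_i`. -/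
theorem result :
    (∀ k d : ℕ, 1 ≤ k → ∃ C : ℕ, 0 < C ∧ ∃ ρ : ℝ, 0 < ρ ∧ ρ < 1 ∧ ∀ F : Fin k → ℕ → ℕ, (∀ i, LM (F i)) →
      ∀ b θ c : ℝ, θ < b → b < 1 → 0 ≤ c → c < 2 * b - 1 → ∃ N₀ : ℕ, ∀ N : ℕ, N₀ ≤ N →
      ({m : Fin k → ℕ | (∀ i, 1 ≤ m i ∧ m i ≤ N) ∧ ¬ ∀ w : Fin k → ℕ, CombT F b θ ρ N m w →
        ∀ i₀, (∀ i, w i ≤ w i₀) → ∀ H : ℝ, 2 ≤ H → H ≤ Real.exp (Real.exp ((w i₀ : ℝ) ^ (1 / (C : ℝ)))) →
          ¬ Small d H (1 / (w i₀ * H ^ C)) w}.ncard : ℝ) ≤ (N : ℝ) ^ k * Real.exp (-(Real.log N ^ c)) ∧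
      ∀ 𝓗 : Set ℝ, ¬ BddAbove 𝓗 →
        ({m : Fin k → ℕ | (∀ i, 1 ≤ m i ∧ m i ≤ N) ∧ ¬ ∀ w : Fin k → ℕ, CombT F b θ ρ N m w →
          ∀ H₀ : ℝ, ∃ H ∈ 𝓗, H₀ ≤ H ∧ ¬ Small d H (1 / H ^ C) w}.ncard : ℝ) ≤
          (N : ℝ) ^ k * Real.exp (-(Real.log N ^ c))) ∧
    (LM Nat.totient ∧ LM (fun m => ∑ d ∈ m.divisors, d)) ∧
    ∀ (k : ℕ) (F : Fin k → ℕ → ℕ) (b θ ρ : ℝ) (N : ℕ) (m w : Fin k → ℕ), (∀ i, Real.exp (Real.log N ^ b) ≤ (w i : ℝ)) →
      (∀ i, ∃ s t : ℕ, s ∣ F i (m i) ∧ t ∣ F i (m i) ∧ (w i = s + t ∨ w i = s - t ∨ w i = s)) →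
      (∀ i j, (w j : ℝ) ^ ρ ≤ (w i : ℝ)) → CombT F b θ ρ N m w := by
  refine ⟨?_, ⟨lm_totient, lm_sigma⟩, fun k F b θ ρ N m w h1 h2 h3 => combT_pm h1 h2 h3⟩
  classical
  intro k d hk
  obtain ⟨C, hC, h⟩ := AlmostAllTuples.result k d
  have hC1 : (1 : ℝ) ≤ C := by exact_mod_cast hC
  obtain ⟨ρ, hρ0, hρ1, hρ⟩ := exists_rho hk (show (0 : ℝ) < 1 / (2 * C) by positivity)
  obtain ⟨K, hK⟩ := count1 hk hC1 (fun T hT => (h T hT).1)
  refine ⟨C, hC, ρ, hρ0, hρ1, fun F hF b θ c hθ hb hc hcb => ?_⟩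
  obtain ⟨N₁, hN₁⟩ := avoidT2 hk hF hρ0 hρ1.le hρ K hθ hb hc hcb
  obtain ⟨N₂, hN₂⟩ := avoidT2 hk hF hρ0 hρ1.le hρ (C : ℝ) hθ hb hc hcb
  refine ⟨max N₁ N₂, fun N hN => ⟨?_, fun 𝓗 h𝓗 => ?_⟩⟩
  · refine le_trans (le_of_eq ?_) (hN₁ N ((le_max_left _ _).trans hN) (W1 d C) hK)
    congr 2
    ext m
    simp only [Set.mem_ofPred_eq, W1]
    push Not
    refine and_congr_right fun _ => ⟨?_, ?_⟩
    · rintro ⟨w, hw, i₀, h1, H, h2, h3, h4⟩
      exact ⟨w, ⟨i₀, h1, H, h2, h3, h4⟩, hw⟩
    · rintro ⟨w, ⟨i₀, h1, H, h2, h3, h4⟩, hw⟩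
      exact ⟨w, hw, i₀, h1, H, h2, h3, h4⟩
  · refine le_trans (le_of_eq ?_) (hN₂ N ((le_max_right _ _).trans hN)
      {w | ∃ H₀ : ℝ, ∀ H ∈ 𝓗, H₀ ≤ H → Small d H (1 / H ^ C) w} (fun X hX => ?_))
    · congr 2
      ext m
      simp only [Set.mem_ofPred_eq]
      push Not
      refine and_congr_right fun _ => ⟨?_, ?_⟩
      · rintro ⟨w, hw, H₀, h1⟩
        exact ⟨w, ⟨H₀, h1⟩, hw⟩
      · rintro ⟨w, ⟨H₀, h1⟩, hw⟩
        exact ⟨w, hw, H₀, h1⟩
    · have h1 := (h X hX).2.2 𝓗 h𝓗
      have hX1 : (1 : ℝ) ≤ X := by exact_mod_cast hX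
      have h2 : (X : ℝ) ^ ((k : ℝ) - 1 / C) ≤ (X : ℝ) ^ ((k : ℝ) - 1 / (2 * C)) := by
        apply Real.rpow_le_rpow_of_exponent_le hX1
        have : 1 / (2 * (C : ℝ)) ≤ 1 / C := one_div_le_one_div_of_le (by linarith) (by linarith)
        linarith
      refine le_trans ?_ (h1.trans (mul_le_mul_of_nonneg_left h2 (by linarith)))
      rw [← Set.ncard_coe_finset]
      apply Nat.cast_le.2
      apply Set.ncard_le_ncard _ (finite_toSet _)
      rintro w ⟨hw, hwW⟩
      rw [mem_coe, mem_filter, AlmostAllTuples.box, Fintype.mem_piFinset]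
      exact ⟨fun i => mem_Icc.2 ⟨by have := (hw i).1; omega, (hw i).2⟩, hwW⟩

end Pool.Agent.Results.MP_3cf473_nt.DivisorSums
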