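import Pool.Agent.U449.BV.VU
import Pool.Agent.Results.MP_3cf473_nt.AlmostAllTuples

/-!
# The conjectural measure of algebraic independence of logarithms near the coordinates of polynomials on arbitrary sets

For all `k ≥ 1` and `D` there is a constant `C`, and for every `η > 0` a constant `c > 0`, such that the following holds for `κ ≥ 0`,
`k - c + k κ < δ ≤ k`. Let `p` be a large prime, `f(x, y)` ANY polynomial of degree at most `d` over the field of `p ^ k` elements with
a monomial which contains both variables (for example `f = x y`), let `A`, `B` be ARBITRARY subsets of this field with at least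
`p ^ δ` elements, and `g`, `h` ARBITRARY functions. For all the pairs `(a, b)` in `A × B`, apart from a proportion of at most
`p ^ (-ρ)`, ALL tuples `n` of positive integers at a distance of at most `p ^ κ` from the tuple of the least residues of the `k`
coordinates of `f(a, b) + g(a) + h(b)` satisfy, with `M = max n_i`: the lower bound `|P (l)| ≥ 1 / (M ^ η H ^ C)` holds for ALL heights
`2 ≤ H ≤ exp (exp (M ^ (1 / C)))`, all logarithms `l_i` of the `n_i` with `|Im (l_i)| ≤ H` and all nonzero polynomials `P` with integer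
coefficients, of degree at most `D` and height at most `H`. Moreover, for every unbounded set of heights, the lower bound
`|P (l)| ≥ H ^ (- C)` holds for arbitrarily large heights `H` in the set, for all these tuples `n`. More generally, this holds for
the values `F(a, b)` of all vector functions of two variables with few coincidences (`RareV`), on arbitrary finite sets.

Since the sets and the functions `g` and `h` are arbitrary, the tuples have no arithmetic structure, and a tuple may be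
taken by very many pairs. So the number of the exceptions (starting library) does not give the result directly. Proof: the
inequality of Cauchy and Schwarz; for most pairs `a, a'` the difference `F(a, b) - F(a', b)` is small for few `b`
(`Pool.Agent.U449.BV`).
-/

set_option autoImplicit false

namespace Pool.Agent.Results.MP_3cf473_nt.MixedPolynomials

open Finset
open Pool.Agent.U449.BV (RareV OnProductsV OnProductsU on_products_tuples on_products_saving coordinates)
open Pool.Agent.Results.MP_3cf473_nt.AlmostAllTuples (Small box)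

/-- `max n_i` -/
def M {k : ℕ} (n : Fin k → ℕ) : ℕ := Finset.univ.sup n

/-- For all heights `2 ≤ H ≤ exp (exp (M ^ (1 / C)))`, `M = max n_i`: `|P (l)| ≥ 1 / (M ^ η H ^ C)` for all logarithms `l_i` of the `n_i`
with `|Im (l_i)| ≤ H` and all nonzero polynomials `P` with integer coefficients, of degree at most `D` and height at most `H`. -/
def AllHeights (D C : ℕ) (η : ℝ) {k : ℕ} (n : Fin k → ℕ) : Prop :=
  ∀ H : ℝ, 2 ≤ H → H ≤ Real.exp (Real.exp ((M n : ℝ) ^ (1 / (C : ℝ)))) → ¬ Small D H (1 / ((M n : ℝ) ^ η * H ^ C)) n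

/-- There are arbitrarily large `H` in `𝓗` with `|P (l)| ≥ 1 / H ^ C` for all logarithms `l_i` of the `n_i` with `|Im (l_i)| ≤ H` and all
nonzero polynomials `P` with integer coefficients, of degree at most `D` and height at most `H`. -/
def SomeHeights (D C : ℕ) (𝓗 : Set ℝ) {k : ℕ} (n : Fin k → ℕ) : Prop :=
  ∀ H₀ : ℝ, ∃ H ∈ 𝓗, H₀ ≤ H ∧ ¬ Small D H (1 / H ^ C) n

/-- ALL tuples `n` of positive integers with `|n_i - x_i| ≤ W` for all `i` satisfy `G`. -/
def Near {k : ℕ} (G : (Fin k → ℕ) → Prop) (W : ℝ) (x : Fin k → ℝ) : Prop :=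
  ∀ n : Fin k → ℕ, (∀ i, 1 ≤ n i) → (∀ i, |(n i : ℝ) - x i| ≤ W) → G n

lemma small_mono {k D : ℕ} {H η η' : ℝ} (h : η ≤ η') {n : Fin k → ℕ} (hs : Small D H η n) : Small D H η' n := by
  obtain ⟨l, h1, h2, P, h3, h4, h5, h6⟩ := hs
  exact ⟨l, h1, h2, P, h3, h4, h5, h6.trans_le h⟩

open Classical in
lemma count_all {k D C : ℕ} (hk : 1 ≤ k) (hC : 0 < C)
    (h : ∀ T : ℕ, 1 ≤ T → ∀ κ : ℝ, 0 < κ → κ ≤ 1 →
      (((box k T).filter fun n => ∃ H : ℝ, 2 ≤ H ∧
        H ≤ Real.exp (Real.exp ((T : ℝ) ^ (1 / (C : ℝ)))) ∧ Small D H (κ / H ^ C) n).card : ℝ) ≤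
        C * (κ ^ (1 / (C : ℝ)) * (T : ℝ) ^ k + (T : ℝ) ^ ((k : ℝ) - 1 / C)))
    {η c : ℝ} (hη : 0 < η) (hc1 : c ≤ 1 / 2) (hc2 : c ≤ η / (2 * C)) (hc3 : c ≤ 1 / C) (T : ℕ) (hT : 1 ≤ T) :
    ({n : Fin k → ℕ | (∀ i, 1 ≤ n i ∧ n i ≤ T) ∧ n ∈ {n : Fin k → ℕ | ¬ AllHeights D C η n}}.ncard : ℝ) ≤
      (1 + 2 * C) * (T : ℝ) ^ ((k : ℝ) - c) := by
  have hT1 : (1 : ℝ) ≤ T := by exact_mod_cast hT
  have hT0 : (0 : ℝ) < T := by linarith
  have hCr : (0 : ℝ) < C := by exact_mod_cast hC
  have hk1 : (1 : ℝ) ≤ k := by exact_mod_cast hk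
  obtain ⟨R, hR⟩ : ∃ R : ℕ, R = ⌊(T : ℝ) ^ (1 / 2 : ℝ)⌋₊ := ⟨_, rfl⟩
  have hRle : (R : ℝ) ≤ (T : ℝ) ^ (1 / 2 : ℝ) := by rw [hR]; exact Nat.floor_le (by positivity)
  have hsub : {n : Fin k → ℕ | (∀ i, 1 ≤ n i ∧ n i ≤ T) ∧ n ∈ {n : Fin k → ℕ | ¬ AllHeights D C η n}} ⊆
      (↑((Fintype.piFinset fun _ : Fin k => Finset.Icc 1 R) ∪ (box k T).filter fun n => ∃ H : ℝ, 2 ≤ H ∧
        H ≤ Real.exp (Real.exp ((T : ℝ) ^ (1 / (C : ℝ)))) ∧ Small D H ((T : ℝ) ^ (-(η / 2)) / H ^ C) n) : Set (Fin k → ℕ)) := by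
    rintro n ⟨hn, hn2⟩
    rw [Finset.coe_union]
    by_cases hM : (M n : ℝ) ≤ (T : ℝ) ^ (1 / 2 : ℝ)
    · left
      rw [Finset.mem_coe, Fintype.mem_piFinset]
      intro i
      rw [Finset.mem_Icc]
      refine ⟨(hn i).1, ?_⟩
      rw [hR]
      apply Nat.le_floor
      refine le_trans ?_ hM
      exact_mod_cast Finset.le_sup (f := n) (Finset.mem_univ i)
    · right
      rw [not_le] at hM
      have hMT : M n ≤ T := Finset.sup_le fun i _ => (hn i).2
      have hMT' : (M n : ℝ) ≤ T := by exact_mod_cast hMT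
      have hM0 : (0 : ℝ) < M n := lt_of_lt_of_le (by positivity) hM.le
      rw [Finset.mem_coe, Finset.mem_filter]
      refine ⟨Fintype.mem_piFinset.2 fun i => Finset.mem_Icc.2 (hn i), ?_⟩
      simp only [AllHeights, Set.mem_ofPred_eq, not_forall, not_not] at hn2
      obtain ⟨H, h1, h2, h3⟩ := hn2
      refine ⟨H, h1, h2.trans ?_, small_mono ?_ h3⟩
      · apply Real.exp_le_exp.2
        apply Real.exp_le_exp.2
        exact Real.rpow_le_rpow hM0.le hMT' (by positivity)
      · have hH : 0 < H ^ C := by positivity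
        have e1 : (T : ℝ) ^ (η / 2) ≤ (M n : ℝ) ^ η := by
          calc (T : ℝ) ^ (η / 2) = ((T : ℝ) ^ (1 / 2 : ℝ)) ^ η := by
                rw [← Real.rpow_mul hT0.le]; congr 1; ring
            _ ≤ (M n : ℝ) ^ η := Real.rpow_le_rpow (by positivity) hM.le hη.le
        rw [Real.rpow_neg hT0.le, ← one_div, div_div]
        exact one_div_le_one_div_of_le (by positivity) (mul_le_mul_of_nonneg_right e1 hH.le)
  have h1 := Set.ncard_le_ncard hsub (Finset.finite_toSet _)
  rw [Set.ncard_coe_finset] at h1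
  have h2 := h1.trans (Finset.card_union_le _ _)
  have h3 : ((Fintype.piFinset fun _ : Fin k => Finset.Icc 1 R).card : ℝ) ≤ (T : ℝ) ^ ((k : ℝ) - c) := by
    rw [Fintype.card_piFinset]
    simp only [Nat.card_Icc, Finset.prod_const, Finset.card_univ, Fintype.card_fin, Nat.add_sub_cancel]
    push_cast
    calc (R : ℝ) ^ k ≤ ((T : ℝ) ^ (1 / 2 : ℝ)) ^ k := pow_le_pow_left₀ (Nat.cast_nonneg _) hRle k
      _ = (T : ℝ) ^ ((k : ℝ) / 2) := by
        rw [← Real.rpow_natCast, ← Real.rpow_mul hT0.le]; congr 1; ring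
      _ ≤ _ := Real.rpow_le_rpow_of_exponent_le hT1 (by linarith)
  have h4 := h T hT ((T : ℝ) ^ (-(η / 2))) (by positivity)
    (Real.rpow_le_one_of_one_le_of_nonpos hT1 (by linarith))
  have h5 : ((T : ℝ) ^ (-(η / 2))) ^ (1 / (C : ℝ)) * (T : ℝ) ^ k ≤ (T : ℝ) ^ ((k : ℝ) - c) := by
    rw [← Real.rpow_mul hT0.le, ← Real.rpow_natCast, ← Real.rpow_add hT0]
    apply Real.rpow_le_rpow_of_exponent_le hT1
    have e2 : -(η / 2) * (1 / (C : ℝ)) = -(η / (2 * C)) := by field_simp
    rw [e2]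
    linarith
  have h6 : (T : ℝ) ^ ((k : ℝ) - 1 / C) ≤ (T : ℝ) ^ ((k : ℝ) - c) :=
    Real.rpow_le_rpow_of_exponent_le hT1 (by linarith)
  have h7 : ((((box k T).filter fun n => ∃ H : ℝ, 2 ≤ H ∧ H ≤ Real.exp (Real.exp ((T : ℝ) ^ (1 / (C : ℝ)))) ∧
      Small D H ((T : ℝ) ^ (-(η / 2)) / H ^ C) n).card : ℕ) : ℝ) ≤ 2 * C * (T : ℝ) ^ ((k : ℝ) - c) := by
    refine h4.trans ?_
    nlinarith
  calc _ ≤ (((Fintype.piFinset fun _ : Fin k => Finset.Icc 1 R).card + ((box k T).filter fun n => ∃ H : ℝ, 2 ≤ H ∧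
        H ≤ Real.exp (Real.exp ((T : ℝ) ^ (1 / (C : ℝ)))) ∧ Small D H ((T : ℝ) ^ (-(η / 2)) / H ^ C) n).card : ℕ) : ℝ) := by
          exact_mod_cast h2
    _ ≤ _ := by
      push_cast
      linarith

/-- **Theorem.** For all `k ≥ 1` and `D` there is `C` such that: (1) for every `η > 0` there is `c > 0` such that for all `κ ≥ 0` the
property `Near (AllHeights D C η)`, with windows of length `X ^ κ`, holds for almost all values of vector functions of two variables
with few coincidences, on arbitrary finite sets of at least `X ^ δ` elements, `k - c + k κ < δ ≤ k` (`OnProductsV`); (2) the property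
`Near (SomeHeights D C 𝓗)` holds for almost all these values, uniformly in the unbounded set `𝓗` of heights, with `c = 1 / C`
(`OnProductsU`).
The tuples of the least residues modulo `p` of the coordinates (with respect to a basis over the field of `p` elements) of
`f(a, b) + g(a) + h(b)` in a field of `p ^ k` elements are such a function, with `X = p`, for all polynomials `f` over this
field with a monomial which contains both variables, arbitrary functions `g` and `h`, and arbitrary finite subsets. -/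
theorem result :
    (∀ k D : ℕ, 1 ≤ k → ∃ C : ℕ, 0 < C ∧
      (∀ η : ℝ, 0 < η → ∃ c : ℝ, 0 < c ∧ ∀ κ : ℝ, 0 ≤ κ →
        OnProductsV k ((k : ℝ) - c + k * κ) κ (Near (AllHeights D C η))) ∧
      ∀ κ : ℝ, 0 ≤ κ → OnProductsU k ((k : ℝ) - 1 / C + k * κ) κ
        (fun 𝓗 : {𝓗 : Set ℝ // ¬ BddAbove 𝓗} => Near (SomeHeights D C 𝓗.1))) ∧
    ∀ (p : ℕ) [Fact p.Prime] (k : ℕ) (K : Type) [Field K] [Algebra (ZMod p) K] (e : Module.Basis (Fin k) (ZMod p) K)
      (d : ℕ) (f : MvPolynomial (Fin 2) K), f.totalDegree ≤ d → (∃ m ∈ f.support, m 0 ≠ 0 ∧ m 1 ≠ 0) →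
      ∀ (g h : K → K) (A B : Finset K),
        RareV d A B (fun a b i => (((e.repr (MvPolynomial.eval ![a, b] f + g a + h b) i).val : ℕ) : ℝ)) := by
  refine ⟨fun k D hk => ?_, coordinates⟩
  obtain ⟨C, hC, h⟩ := AlmostAllTuples.result k D
  have hCr : (0 : ℝ) < C := by exact_mod_cast hC
  have hC1 : (1 : ℝ) ≤ C := by exact_mod_cast hC
  have hk1 : (1 : ℝ) ≤ k := by exact_mod_cast hk
  refine ⟨C, hC, fun η hη => ?_, fun κ hκ => ?_⟩
  · refine ⟨min (1 / 2) (min (η / (2 * C)) (1 / C)), by positivity, fun κ hκ => ?_⟩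
    have hc1 : min (1 / 2) (min (η / (2 * C)) (1 / (C : ℝ))) ≤ 1 / 2 := min_le_left _ _
    have hc2 : min (1 / 2) (min (η / (2 * C)) (1 / (C : ℝ))) ≤ η / (2 * C) := (min_le_right _ _).trans (min_le_left _ _)
    have hc3 : min (1 / 2) (min (η / (2 * C)) (1 / (C : ℝ))) ≤ 1 / C := (min_le_right _ _).trans (min_le_right _ _)
    exact (on_products_tuples 1 {n : Fin k → ℕ | ¬ AllHeights D C η n} (C := 1 + 2 * C) (by linarith) hκ
      (fun T hT => count_all hk hC (fun T hT => (h T hT).1) hη hc1 hc2 hc3 T hT)).mono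
      (fun W x _ h' n hn hnx => not_not.1 (h' n hn hnx))
  · have e : min (1 / (C : ℝ)) k = 1 / C := min_eq_left ((div_le_one_of_le₀ hC1 hCr.le).trans hk1)
    have h8 := on_products_saving (k := k) 1 (Ω := {𝓗 : Set ℝ // ¬ BddAbove 𝓗})
      (fun 𝓗 => {n : Fin k → ℕ | ∃ H₀ : ℝ, ∀ H ∈ 𝓗.1, H₀ ≤ H → Small D H (1 / H ^ C) n}) (c := 1 / C) (C := C) hκ
      (fun 𝓗 T hT => ?_)
    · rw [e] at h8
      refine h8.mono id fun 𝓗 W x _ h' n hn hnx => ?_
      have h9 := h' n hn hnx
      intro H₀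
      by_contra hcon
      push Not at hcon
      exact h9 ⟨H₀, fun H hH hH0 => hcon H hH hH0⟩
    · classical
      refine le_trans (Nat.cast_le.2 ?_) ((h T hT).2.2 𝓗.1 𝓗.2)
      rw [← Set.ncard_coe_finset]
      refine Set.ncard_le_ncard ?_ (Finset.finite_toSet _)
      rintro n ⟨h1, h2⟩
      rw [Finset.mem_coe, Finset.mem_filter]
      exact ⟨Fintype.mem_piFinset.2 fun i => Finset.mem_Icc.2 (h1 i), h2⟩

end Pool.Agent.Results.MP_3cf473_nt.MixedPolynomials
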