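import Pool.Agent.U405.RS.G5
import Pool.Agent.Results.MP_3cf473_nt.AlmostAllTuples
import Pool.Agent.N255.TGX.Dyadic

/-!
# The conjectural measure of algebraic independence for the logarithms of values of multiplicative functions over thin sets

Let `F_1, …, F_k` be positive multiplicative functions of at most polynomial growth which for each `a ≥ 1` are injective
at the powers `p ^ a` of the large primes and at most `M p ^ a` there; for example Euler's function or the sum of the
divisors. Let each of the sets `S_1, …, S_k` be a set of shifted primes `p + a_i`, `p ≤ x`, or an interval `(u, u + h]`, `u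
≤ x`, `x ^ τ ≤ h ≤ x`, where `1 - τ` is smaller than a positive constant which depends only on `k` and `d`. For almost
all `m` in `S_1 × ⋯ × S_k` (with a saving of any power of `log x`) and the tuple `w = (F_i(m_i))`, for instance `w =
(φ(p - 1), σ(p' + 2))` with primes `p`, `p'`, with `M = max w_i`:

* `|P (l)| ≥ 1 / (M H ^ C)` holds for all heights `2 ≤ H ≤ exp (exp (M ^ (1 / C)))`, all logarithms `l i` of the `w_i`
  with `|Im (l i)| ≤ H` and all nonzero polynomials `P` with integer coefficients, of degree at most `d` and height at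
  most `H`;
* for every unbounded set of heights (the exceptional `m` depend on it) `|P (l)| ≥ H ^ (- C)` for arbitrarily large
  heights `H` in the set, all such `l` and `P`;

the constant `C` depends only on `k` and `d`.

Proof. The starting theorem `AlmostAllTuples` of this problem bounds the number of the exceptional tuples of integers up
to `X` with a power saving (for the heights which depend on the largest entry: counting by halves, as in `CommonFactors`
of helper536). The tuples `F_i(m_i)` are taken with large and uneven multiplicities, so that the size of the exceptional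
set says nothing about them; they are treated by the tool `Pool.Agent.U405.RS` of helper405 (a thin set has few
multiples of each `n ≤ x^δ`, Rankin's method, fibres over slabs). The starting file `MultiplicativeValues` treats all
`m` in `[1, N] ^ k`.
-/

set_option autoImplicit false

namespace Pool.Agent.Results.MP_3cf473_nt.ThinTuples

open Finset
open Pool.Agent.U405.RS
open Pool.Agent.Results.MP_3cf473_nt.AlmostAllTuples (Small box)

/-- For the largest entry `M` of `w`, all heights `2 ≤ H ≤ exp (exp (M ^ (1 / C)))`, all logarithms `l i` of the `w i` with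
`|Im (l i)| ≤ H` and all nonzero polynomials `P` of degree at most `d` and height at most `H`: `|P (l)| ≥ 1 / (M H ^
C)`. -/
def Measure {k : ℕ} (d C : ℕ) (w : Fin k → ℕ) : Prop :=
  ∀ i₀, (∀ i, w i ≤ w i₀) → ∀ H : ℝ, 2 ≤ H → H ≤ Real.exp (Real.exp ((w i₀ : ℝ) ^ (1 / (C : ℝ)))) →
    ¬ Small d H (1 / (w i₀ * H ^ C)) w

/-- There are arbitrarily large `H` in `𝓗` such that `|P (l)| ≥ 1 / H ^ C` for all logarithms `l i` of the `w i` with `|Im
(l i)| ≤ H` and all nonzero polynomials `P` of degree at most `d` and height at most `H`. -/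
def Often {k : ℕ} (d C : ℕ) (𝓗 : Set ℝ) (w : Fin k → ℕ) : Prop :=
  ∀ H₀ : ℝ, ∃ H ∈ 𝓗, H₀ ≤ H ∧ ¬ Small d H (1 / H ^ C) w

lemma Small.mono {k d : ℕ} {H η η' : ℝ} {n : Fin k → ℕ} (h : Small d H η n) (hη : η ≤ η') : Small d H η' n := by
  obtain ⟨l, h1, h2, P, h3, h4, h5, h6⟩ := h
  exact ⟨l, h1, h2, P, h3, h4, h5, h6.trans_le hη⟩

open Classical in
/-- the count for the largest entry (after helper536) -/
lemma count1 {k d C : ℕ} (hk : 1 ≤ k) (hC1 : (1 : ℝ) ≤ C)
    (h : ∀ T : ℕ, 1 ≤ T → ∀ κ : ℝ, 0 < κ → κ ≤ 1 →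
      (((box k T).filter fun n => ∃ H : ℝ, 2 ≤ H ∧
        H ≤ Real.exp (Real.exp ((T : ℝ) ^ (1 / (C : ℝ)))) ∧ Small d H (κ / H ^ C) n).card : ℝ) ≤
        C * (κ ^ (1 / (C : ℝ)) * (T : ℝ) ^ k + (T : ℝ) ^ ((k : ℝ) - 1 / C))) :
    ∃ K : ℝ, ∀ X : ℕ, 1 ≤ X → ({w : Fin k → ℕ | (∀ i, 2 ≤ w i ∧ w i ≤ X) ∧ ¬ Measure d C w}.ncard : ℝ) ≤
      K * (X : ℝ) ^ ((k : ℝ) - 1 / (2 * C)) := by
  have hk1 : (1 : ℝ) ≤ k := by exact_mod_cast hk
  have hC0 : (0 : ℝ) < C := by linarith
  have e1 : 1 / (2 * (C : ℝ)) ≤ 1 / 2 := one_div_le_one_div_of_le (by norm_num) (by linarith)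
  have e2 : 1 / (2 * (C : ℝ)) ≤ 1 / C := one_div_le_one_div_of_le hC0 (by linarith)
  have e3 : 1 / (C : ℝ) ≤ 1 := by rw [div_le_one hC0]; exact hC1
  refine Exists.elim (Pool.Agent.N255.TGX.dyadic
    (N := fun X : ℝ => (((box k ⌊X⌋₊).filter (fun w => ¬ Measure d C w)).card : ℝ))
    (s := (k : ℝ) - 1 / (2 * C)) (C := 3 * C) (B := ((box k 2).card : ℝ)) (X₀ := 2) (by linarith) (by positivity)
    (by positivity) le_rfl ?_ ?_) (fun K hK => ?_)
  rotate_left 2
  · refine ⟨K, fun X hX => le_trans ?_ (hK X (by exact_mod_cast hX))⟩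
    simp only [Nat.floor_natCast]
    rw [← Set.ncard_coe_finset]
    apply Nat.cast_le.2
    apply Set.ncard_le_ncard _ (finite_toSet _)
    rintro w ⟨hw, hwW⟩
    rw [mem_coe, mem_filter, AlmostAllTuples.box, Fintype.mem_piFinset]
    exact ⟨fun i => mem_Icc.2 ⟨by have := (hw i).1; omega, (hw i).2⟩, hwW⟩
  · intro X _ hX
    apply Nat.cast_le.2
    refine (card_filter_le _ _).trans (card_le_card ?_)
    have hfl : ⌊X⌋₊ ≤ 2 := Nat.floor_le_of_le (by exact_mod_cast hX.le)
    unfold AlmostAllTuples.box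
    exact Fintype.piFinset_subset _ _ fun _ => Icc_subset_Icc_right hfl
  · intro X hX
    obtain ⟨T, hT⟩ : ∃ T : ℕ, T = ⌊X⌋₊ := ⟨_, rfl⟩
    have hT2 : 2 ≤ T := by rw [hT]; exact Nat.le_floor (by exact_mod_cast hX)
    have hT2r : (2 : ℝ) ≤ T := by exact_mod_cast hT2
    have hTX : (T : ℝ) ≤ X := by rw [hT]; exact Nat.floor_le (by linarith)
    have hsub : (box k ⌊X⌋₊).filter (fun w => ¬ Measure d C w) ⊆ (box k ⌊X / 2⌋₊).filter (fun w => ¬ Measure d C w) ∪
        (box k T).filter (fun n => ∃ H : ℝ, 2 ≤ H ∧ H ≤ Real.exp (Real.exp ((T : ℝ) ^ (1 / (C : ℝ)))) ∧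
          Small d H ((2 / T) / H ^ C) n) := by
      intro w hw
      rw [mem_filter, ← hT] at hw
      obtain ⟨hw1, hw2⟩ := hw
      have hw3 := hw2
      have hw1' := hw1
      rw [AlmostAllTuples.box, Fintype.mem_piFinset] at hw1'
      rw [mem_union, mem_filter, mem_filter]
      unfold Measure at hw2
      push Not at hw2
      obtain ⟨i₀, h1, H, h2, h3, h4⟩ := hw2
      have hi₀ := mem_Icc.1 (hw1' i₀)
      have hwT : (w i₀ : ℝ) ≤ T := by exact_mod_cast hi₀.2
      by_cases hle : (w i₀ : ℝ) ≤ X / 2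
      · left
        refine ⟨?_, hw3⟩
        rw [AlmostAllTuples.box, Fintype.mem_piFinset]
        intro i
        rw [mem_Icc]
        refine ⟨(mem_Icc.1 (hw1' i)).1, Nat.le_floor ?_⟩
        exact le_trans (by exact_mod_cast h1 i) hle
      · right
        rw [not_le] at hle
        refine ⟨hw1, H, h2, h3.trans ?_, Small.mono h4 ?_⟩
        · apply Real.exp_le_exp.2
          apply Real.exp_le_exp.2
          exact Real.rpow_le_rpow (Nat.cast_nonneg _) hwT (by positivity)
        · have hH0 : (0 : ℝ) < H ^ C := by positivity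
          rw [← div_div]
          apply div_le_div_of_nonneg_right _ hH0.le
          rw [div_le_div_iff₀ (by linarith) (by linarith)]
          linarith
    have h5 : (((box k ⌊X⌋₊).filter (fun w => ¬ Measure d C w)).card : ℝ) ≤
        (((box k ⌊X / 2⌋₊).filter (fun w => ¬ Measure d C w)).card : ℝ) +
        (((box k T).filter (fun n => ∃ H : ℝ, 2 ≤ H ∧ H ≤ Real.exp (Real.exp ((T : ℝ) ^ (1 / (C : ℝ)))) ∧
          Small d H ((2 / T) / H ^ C) n)).card : ℝ) := by
      exact_mod_cast (card_le_card hsub).trans (card_union_le _ _)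
    have h6 := h T (by omega) (2 / T) (by positivity) (by rw [div_le_one (by linarith)]; exact hT2r)
    refine h5.trans (add_le_add_right (h6.trans ?_) _)
    have hT0 : (0 : ℝ) < T := by linarith
    have h7 : (2 / (T : ℝ)) ^ (1 / (C : ℝ)) * (T : ℝ) ^ k ≤ 2 * (T : ℝ) ^ ((k : ℝ) - 1 / C) := by
      rw [Real.div_rpow (by norm_num) hT0.le, Real.rpow_sub hT0, Real.rpow_natCast]
      have h8 : (2 : ℝ) ^ (1 / (C : ℝ)) ≤ 2 := by
        calc (2 : ℝ) ^ (1 / (C : ℝ)) ≤ 2 ^ (1 : ℝ) := Real.rpow_le_rpow_of_exponent_le (by norm_num) e3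
          _ = 2 := Real.rpow_one _
      calc (2 : ℝ) ^ (1 / (C : ℝ)) / (T : ℝ) ^ (1 / (C : ℝ)) * (T : ℝ) ^ k =
            (2 : ℝ) ^ (1 / (C : ℝ)) * ((T : ℝ) ^ k / (T : ℝ) ^ (1 / (C : ℝ))) := by ring
        _ ≤ 2 * ((T : ℝ) ^ k / (T : ℝ) ^ (1 / (C : ℝ))) := mul_le_mul_of_nonneg_right h8 (by positivity)
    have h9 : (T : ℝ) ^ ((k : ℝ) - 1 / C) ≤ X ^ ((k : ℝ) - 1 / (2 * C)) := by
      calc (T : ℝ) ^ ((k : ℝ) - 1 / C) ≤ X ^ ((k : ℝ) - 1 / C) := Real.rpow_le_rpow hT0.le hTX (by linarith)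
        _ ≤ X ^ ((k : ℝ) - 1 / (2 * C)) := Real.rpow_le_rpow_of_exponent_le (by linarith) (by linarith)
    calc (C : ℝ) * ((2 / (T : ℝ)) ^ (1 / (C : ℝ)) * (T : ℝ) ^ k + (T : ℝ) ^ ((k : ℝ) - 1 / C))
        ≤ C * (3 * X ^ ((k : ℝ) - 1 / (2 * C))) := by
          apply mul_le_mul_of_nonneg_left _ hC0.le
          linarith
      _ = 3 * C * X ^ ((k : ℝ) - 1 / (2 * C)) := by ring

/-- **The conjectural measure of algebraic independence for the logarithms of values of multiplicative functions over thin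
sets.** For all `k ≥ 1` and `d` there is `C > 0` such that for all families `F` of `k` functions in the class `PM` and
all `U`, in the sense of `ThinAll (1 / (2 C)) F U` (with a saving of `(log x)^U`, for almost all `m` in all products of
`k` sets, each one the set of the shifted primes `p + a_i`, `p ≤ x`, or an interval `(u, u + h]`, `u ≤ x`, `x^τ ≤ h ≤
x`, whenever `0 < τ ≤ 1`, `k τ > k - 1 / (2 C)`): all `w_i = F_i(m_i)` are at least `2` and `w` has the property
`Measure d C`; and for every unbounded set `𝓗` of heights (uniformly; the exceptional `m` depend on it) all `w_i` are at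
least `2` and `w` has the property `Often d C 𝓗`. Euler's function, the sum of the divisors and the identity are in the
class. -/
theorem result :
    (∀ k d : ℕ, 1 ≤ k → ∃ C : ℕ, 0 < C ∧ ∀ F : Fin k → ℕ → ℕ, (∀ i, PM (F i)) → ∀ U : ℕ,
      ThinAll (1 / (2 * (C : ℝ))) F U (fun (_ : Unit) (w : Fin k → ℕ) => (∀ i, 2 ≤ w i) ∧ Measure d C w) ∧
      ThinAll (1 / (2 * (C : ℝ))) F U
        (fun (𝓗 : Set ℝ) (w : Fin k → ℕ) => ¬ BddAbove 𝓗 → (∀ i, 2 ≤ w i) ∧ Often d C 𝓗 w)) ∧
    (PM Nat.totient ∧ PM (fun m => ∑ d ∈ m.divisors, d) ∧ PM (fun m => m)) := by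
  refine ⟨fun k d hk => ?_, examplesT⟩
  classical
  obtain ⟨C, hC, h⟩ := AlmostAllTuples.result k d
  have hC1 : (1 : ℝ) ≤ C := by exact_mod_cast hC
  obtain ⟨K, hK⟩ := count1 (d := d) hk hC1 (fun T hT κ hκ hκ1 => (h T hT).1 κ hκ hκ1)
  refine ⟨C, hC, fun F hF U => ⟨?_, ?_⟩⟩
  · exact thinAll_two hk hF (by positivity) K (fun (_ : Unit) (w : Fin k → ℕ) => Measure d C w) (fun _ X hX => hK X hX) U
  · refine thinAll_if hk hF (by positivity) (C : ℝ) (fun 𝓗 : Set ℝ => ¬ BddAbove 𝓗)
      (fun (𝓗 : Set ℝ) (w : Fin k → ℕ) => Often d C 𝓗 w) (fun 𝓗 h𝓗 X hX => ?_) U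
    have h1 := (h X hX).2.2 𝓗 h𝓗
    have hX1 : (1 : ℝ) ≤ X := by exact_mod_cast hX
    have h2 : (X : ℝ) ^ ((k : ℝ) - 1 / C) ≤ (X : ℝ) ^ ((k : ℝ) - 1 / (2 * C)) := by
      apply Real.rpow_le_rpow_of_exponent_le hX1
      have : 1 / (2 * (C : ℝ)) ≤ 1 / C := one_div_le_one_div_of_le (by linarith) (by linarith)
      linarith
    refine le_trans ?_ (h1.trans (mul_le_mul_of_nonneg_left h2 (by linarith)))
    rw [← Set.ncard_coe_finset]
    apply Nat.cast_le.2
    apply Set.ncard_le_ncard _ (finite_toSet _)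
    rintro w ⟨hw, hwW⟩
    rw [mem_coe, mem_filter, AlmostAllTuples.box, Fintype.mem_piFinset]
    refine ⟨fun i => mem_Icc.2 ⟨by have := (hw i).1; omega, (hw i).2⟩, ?_⟩
    unfold Often at hwW
    push Not at hwW
    exact hwW

end Pool.Agent.Results.MP_3cf473_nt.ThinTuples
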